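import Mathlib

/-!
# `p`-adic closures of subgroups of simple abelian varieties

`A` is a simple abelian variety over `ℚ` of dimension `n ≥ 1`.
-/

namespace Pool.Agent.N522.PC

/-- The data attached to `A`, a prime `p`, a basis over `ℚ` of the Lie algebra of `A`, and a
commutative subfield `E` of `End(A) ⊗ ℚ`. -/
structure Setup (p : ℕ) [Fact p.Prime] (n : ℕ) where
  /-- the space `A(ℚ) ⊗ ℚ` -/
  M : Type
  /-- the field `E` -/
  E : Type
  [grp : AddCommGroup M]
  [mod : Module ℚ M]
  [fld : Field E]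
  [alg : Algebra ℚ E]
  [modE : Module E M]
  /-- the `p`-adic logarithm `A(ℚ) ⊗ ℚ → Lie(A) ⊗ ℚ_p = ℚ_p^n` -/
  log : M →ₗ[ℚ] (Fin n → ℚ_[p])
  /-- the action of `E` on `Lie(A) = ℚ^n` -/
  tau : E →ₐ[ℚ] Matrix (Fin n) (Fin n) ℚ

attribute [instance] Setup.grp Setup.mod Setup.fld Setup.alg Setup.modE

variable {p : ℕ} [Fact p.Prime] {n : ℕ}

/-- Properties of the data.

* `fin`: `End(A) ⊗ ℚ` is finite-dimensional; `tower`: compatibility of the actions of `ℚ` and `E`;
* `equiv`: the logarithm commutes with the action of `E`;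
* `transc`: the `p`-adic analytic subgroup theorem (Matev, Fuchs-Pham; for elliptic curves Bertrand):
  as `A` is simple, the coordinates of the logarithm of a point of infinite order satisfy no linear
  relation with algebraic coefficients. -/
structure Props (D : Setup p n) : Prop where
  fin : FiniteDimensional ℚ D.E
  tower : ∀ (q : ℚ) (e : D.E) (P : D.M), (q • e) • P = q • (e • P)
  equiv : ∀ (e : D.E) (P : D.M),
    D.log (e • P) = ((D.tau e).map (fun x : ℚ => (x : ℚ_[p]))).mulVec (D.log P)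
  transc : ∀ P : D.M, P ≠ 0 → ∀ c : Fin n → ℚ_[p], (∀ i, IsAlgebraic ℚ (c i)) →
    ∑ i, c i * D.log P i = 0 → c = 0

/-- The `ℤ_p`-rank of the closure in `A(ℚ_p)` of a finitely generated subgroup `𝓛` of `A(ℚ)`, with
`L = 𝓛 ⊗ ℚ`: the dimension of the `ℚ_p`-subspace of `Lie(A) ⊗ ℚ_p` generated by its logarithms. -/
noncomputable def closureRank (D : Setup p n) (L : Submodule ℚ D.M) : ℕ :=
  Module.finrank ℚ_[p] (Submodule.span ℚ_[p] (D.log '' (L : Set D.M)))

end Pool.Agent.N522.PC
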