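import Pool.Agent.N522.PC.Defs

/-!
# The closure has full rank for subgroups contained in `E · P`
-/

namespace Pool.Agent.N522.PC

open Polynomial

variable {p : ℕ} [Fact p.Prime] {n : ℕ}

/-- rational vectors which are independent over `ℚ` are independent over `ℚ_p` -/
theorem indep_cast {ι κ : Type} [Fintype ι] [Fintype κ]
    (v : ι → κ → ℚ) (hv : LinearIndependent ℚ v) :
    LinearIndependent ℚ_[p] (fun i k => ((v i k : ℚ) : ℚ_[p])) := by
  classical
  obtain ⟨B, hB⟩ := LinearMap.exists_leftInverse_of_injective (Fintype.linearCombination ℚ v)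
    (by rw [LinearMap.ker_eq_bot]; exact linearIndependent_iff_injective_fintypeLinearCombination.mp hv)
  have key : ∀ i j, ∑ k, B (Pi.single k 1) i * v j k = if i = j then 1 else 0 := by
    intro i j
    have h1 : B (v j) = Pi.single j 1 := by
      have := LinearMap.congr_fun hB (Pi.single j 1)
      simpa [Fintype.linearCombination_apply] using this
    have h2 : B (v j) = ∑ k, v j k • B (Pi.single k 1) := by
      have h4 : v j = ∑ k, v j k • (Pi.single k (1 : ℚ) : κ → ℚ) := by
        ext k
        simp [Finset.sum_apply, Pi.single_apply]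
      conv_lhs => rw [h4]
      simp [map_sum]
    have h3 : (∑ k, v j k • B (Pi.single k 1)) i = (Pi.single j (1 : ℚ) : ι → ℚ) i := by
      rw [← h2, h1]
    simp only [Finset.sum_apply, Pi.smul_apply, smul_eq_mul, Pi.single_apply] at h3
    rw [← h3]
    exact Finset.sum_congr rfl fun k _ => mul_comm _ _
  rw [Fintype.linearIndependent_iff]
  intro a ha i
  have h3 : ∀ k, ∑ j, a j * ((v j k : ℚ) : ℚ_[p]) = 0 := by
    intro k
    have := congrFun ha k
    simpa [Finset.sum_apply] using this
  calc a i = ∑ j, a j * (((if i = j then 1 else 0 : ℚ)) : ℚ_[p]) := by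
        rw [Finset.sum_eq_single i]
        · simp
        · intro j _ hj
          rw [if_neg (fun h => hj h.symm)]
          simp
        · simp
    _ = ∑ j, a j * ((∑ k, B (Pi.single k 1) i * v j k : ℚ) : ℚ_[p]) := by
        refine Finset.sum_congr rfl fun j _ => ?_
        rw [key]
    _ = ∑ k, ((B (Pi.single k 1) i : ℚ) : ℚ_[p]) * ∑ j, a j * ((v j k : ℚ) : ℚ_[p]) := by
        push_cast
        simp_rw [Finset.mul_sum]
        rw [Finset.sum_comm]
        refine Finset.sum_congr rfl fun k _ => Finset.sum_congr rfl fun j _ => ?_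
        ring
    _ = 0 := by simp [h3]

/-- the action of `E` on `Lie(A) ⊗ ℚ_p` -/
noncomputable def phi (D : Setup p n) : D.E →+* Matrix (Fin n) (Fin n) ℚ_[p] :=
  (algebraMap ℚ ℚ_[p]).mapMatrix.comp (D.tau : D.E →+* Matrix (Fin n) (Fin n) ℚ)

theorem phi_apply (D : Setup p n) (e : D.E) (i j : Fin n) :
    phi D e i j = ((D.tau e i j : ℚ) : ℚ_[p]) := by
  simp [phi]

theorem log_smul {D : Setup p n} (hD : Props D) (e : D.E) (P : D.M) :
    D.log (e • P) = (phi D e).mulVec (D.log P) := by
  rw [hD.equiv]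
  congr 1

section
variable {D : Setup p n} (hD : Props D) (hn : 0 < n)
include hD hn

theorem matrix_ne_zero (θ : D.E) (d : ℕ)
    (hθ : LinearIndependent ℚ (fun i : Fin d => θ ^ (i : ℕ))) (q : ℚ_[p][X]) (hq : q ≠ 0)
    (hd : q.natDegree < d) : aeval (phi D θ) q ≠ 0 := by
  classical
  intro h0
  have : Nonempty (Fin n) := ⟨⟨0, hn⟩⟩
  have hinj : Function.Injective D.tau := D.tau.toRingHom.injective
  have h1 : LinearIndependent ℚ (fun i : Fin d => D.tau (θ ^ (i : ℕ))) :=
    hθ.map' D.tau.toLinearMap (LinearMap.ker_eq_bot.mpr hinj)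
  let v : Fin d → (Fin n × Fin n) → ℚ := fun i jk => D.tau (θ ^ (i : ℕ)) jk.1 jk.2
  have h2 : LinearIndependent ℚ v := by
    rw [Fintype.linearIndependent_iff] at h1 ⊢
    intro g hg
    apply h1 g
    ext j k
    have := congrFun hg (j, k)
    simpa [v, Finset.sum_apply, Matrix.sum_apply] using this
  have h3 := indep_cast (p := p) v h2
  rw [Fintype.linearIndependent_iff] at h3
  apply hq
  have h4 : ∀ i : Fin d, q.coeff i = 0 := by
    apply h3
    ext ⟨j, k⟩
    have h5 := congrFun (congrFun h0 j) k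
    rw [aeval_eq_sum_range' hd, Matrix.sum_apply, Finset.sum_range] at h5
    simp only [Finset.sum_apply, Pi.smul_apply, smul_eq_mul]
    refine Eq.trans (Finset.sum_congr rfl fun i _ => ?_) h5
    rw [Matrix.smul_apply, smul_eq_mul, ← map_pow, phi_apply]
  ext i
  by_cases hi : i < d
  · simpa using h4 ⟨i, hi⟩
  · rw [coeff_eq_zero_of_natDegree_lt (by omega)]
    simp

theorem vec_ne_zero (θ : D.E) (d : ℕ)
    (hθ : LinearIndependent ℚ (fun i : Fin d => θ ^ (i : ℕ)))
    (P : D.M) (hP : P ≠ 0) (q : ℚ_[p][X]) (hq : q ≠ 0)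
    (hd : q.natDegree < d) : (aeval (phi D θ) q).mulVec (D.log P) ≠ 0 := by
  classical
  intro h0
  have := hD.fin
  have hint : IsIntegral ℚ θ := Algebra.IsIntegral.isIntegral θ
  set f := minpoly ℚ θ with hf
  have hfm : f.Monic := minpoly.monic hint
  set fp := f.map (algebraMap ℚ ℚ_[p]) with hfp
  have hf0 : aeval (phi D θ) fp = 0 := by
    have h1 : (phi D) (aeval θ f) = 0 := by rw [hf, minpoly.aeval, map_zero]
    rw [hfp, aeval_map_algebraMap]
    rw [← h1]
    rw [aeval_def, aeval_def, hom_eval₂]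
    congr 1
    ext r i j
    rw [RingHom.comp_apply, phi_apply, D.tau.commutes, Matrix.algebraMap_matrix_apply,
      Matrix.algebraMap_matrix_apply]
    split_ifs <;> simp
  set g0 := EuclideanDomain.gcd q fp with hg0
  have hg0q : g0 ∣ q := EuclideanDomain.gcd_dvd_left _ _
  have hg0f : g0 ∣ fp := EuclideanDomain.gcd_dvd_right _ _
  have hg0ne : g0 ≠ 0 := by
    intro h
    rw [h] at hg0q
    exact hq (zero_dvd_iff.mp hg0q)
  set g := g0 * C (g0.leadingCoeff⁻¹) with hg
  have hgm : g.Monic := monic_mul_leadingCoeff_inv hg0ne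
  have hgf : g ∣ fp := by
    have : g ∣ g0 := by
      refine ⟨C g0.leadingCoeff, ?_⟩
      rw [hg, mul_assoc, ← C_mul, inv_mul_cancel₀ (leadingCoeff_ne_zero.mpr hg0ne), C_1, mul_one]
    exact this.trans hg0f
  have hgdeg : g.natDegree < d := by
    have h1 : g.natDegree = g0.natDegree := by
      rw [hg, natDegree_mul_C (inv_ne_zero (leadingCoeff_ne_zero.mpr hg0ne))]
    rw [h1]
    exact lt_of_le_of_lt (natDegree_le_of_dvd hg0q hq) hd
  have hgx0 : (aeval (phi D θ) g0).mulVec (D.log P) = 0 := by
    have h1 : g0 = q * EuclideanDomain.gcdA q fp + fp * EuclideanDomain.gcdB q fp :=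
      EuclideanDomain.gcd_eq_gcd_ab q fp
    rw [h1, map_add, map_mul, map_mul, hf0, zero_mul, add_zero, ← map_mul, mul_comm, map_mul,
      ← Matrix.mulVec_mulVec, h0, Matrix.mulVec_zero]
  have hgx : (aeval (phi D θ) g).mulVec (D.log P) = 0 := by
    rw [hg, mul_comm, map_mul, ← Matrix.mulVec_mulVec, hgx0, Matrix.mulVec_zero]
  have hgne : g ≠ 0 := hgm.ne_zero
  have hM := matrix_ne_zero hD hn θ d hθ g hgne hgdeg
  -- a nonzero row
  obtain ⟨j, hj⟩ : ∃ j, (aeval (phi D θ) g) j ≠ 0 := by
    by_contra hcon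
    push Not at hcon
    exact hM (funext hcon)
  have hlift := integralClosure.mem_lifts_of_monic_of_dvd_map ℚ_[p] hfm hgm hgf
  have hcoeff : ∀ i, IsIntegral ℚ (g.coeff i) := by
    intro i
    rw [lifts_iff_coeff_lifts] at hlift
    obtain ⟨y, hy⟩ := hlift i
    rw [← hy]
    exact y.2
  apply hj
  apply hD.transc P hP
  · intro k
    rw [isAlgebraic_iff_isIntegral]
    rw [aeval_eq_sum_range, Matrix.sum_apply]
    refine IsIntegral.sum _ fun i _ => ?_
    rw [Matrix.smul_apply, smul_eq_mul, ← map_pow, phi_apply]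
    refine (hcoeff i).mul ?_
    have := isIntegral_algebraMap (R := ℚ) (A := ℚ_[p]) (x := D.tau (θ ^ i) j k)
    simpa using this
  · have := congrFun hgx j
    simpa [Matrix.mulVec, dotProduct] using this

/-- the logarithms of `ℚ`-independent elements of `E · P` are `ℚ_p`-independent -/
theorem indep_log {m : ℕ} (P : D.M) (b : Fin m → D.M) (hb : LinearIndependent ℚ b)
    (hE : ∀ k, ∃ e : D.E, b k = e • P) : LinearIndependent ℚ_[p] (fun k => D.log (b k)) := by
  classical
  have := hD.fin
  choose e he using hE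
  by_cases hP : P = 0
  · rw [Fintype.linearIndependent_iff]
    intro a _ k
    exact absurd (by rw [he k, hP, smul_zero]) (hb.ne_zero k)
  let pb := Field.powerBasisOfFiniteOfSeparable ℚ D.E
  have hpb : LinearIndependent ℚ (fun i : Fin pb.dim => pb.gen ^ (i : ℕ)) := by
    have := pb.basis.linearIndependent
    rwa [PowerBasis.coe_basis] at this
  let v : Fin m → Fin pb.dim → ℚ := fun k => pb.basis.equivFun (e k)
  have hev : ∀ k, e k = ∑ i, v k i • pb.gen ^ (i : ℕ) := by
    intro k
    have := pb.basis.sum_equivFun (e k)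
    rw [PowerBasis.coe_basis] at this
    exact this.symm
  have hsm : ∀ (q : ℚ) (x : D.E), (q • x) • P = q • (x • P) := fun q x => hD.tower q x P
  have hei : LinearIndependent ℚ e := by
    rw [Fintype.linearIndependent_iff] at hb ⊢
    intro c hc
    apply hb c
    have : (∑ k, c k • e k) • P = 0 := by rw [hc, zero_smul]
    rw [Finset.sum_smul] at this
    rw [← this]
    exact Finset.sum_congr rfl fun k _ => by rw [he k, hsm]
  have hv : LinearIndependent ℚ v :=
    hei.map' (pb.basis.equivFun : D.E →ₗ[ℚ] (Fin pb.dim → ℚ))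
      (LinearMap.ker_eq_bot.mpr pb.basis.equivFun.injective)
  have hvp := indep_cast (p := p) v hv
  rw [Fintype.linearIndependent_iff] at hvp ⊢
  intro a ha
  apply hvp a
  -- the polynomial
  set q : ℚ_[p][X] := ∑ i : Fin pb.dim, C (∑ k, a k * ((v k i : ℚ) : ℚ_[p])) * X ^ (i : ℕ) with hq
  have hqcoeff : ∀ i : Fin pb.dim, q.coeff i = ∑ k, a k * ((v k i : ℚ) : ℚ_[p]) := by
    intro i
    rw [hq, finsetSum_coeff]
    simp only [coeff_C_mul, coeff_X_pow]
    rw [Finset.sum_eq_single i]
    · simp
    · intro j _ hj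
      have : (i : ℕ) ≠ (j : ℕ) := fun h => hj (Fin.ext h.symm)
      simp [this]
    · simp
  have hdim : 0 < pb.dim := pb.dim_pos
  have hqdeg : q.natDegree < pb.dim := by
    have h1 : q.natDegree ≤ pb.dim - 1 := by
      apply natDegree_sum_le_of_forall_le
      intro i _
      refine (natDegree_C_mul_X_pow_le _ _).trans ?_
      have := i.2
      omega
    omega
  have hqx : (aeval (phi D pb.gen) q).mulVec (D.log P) = 0 := by
    rw [hq, map_sum]
    have h1 : ∀ i : Fin pb.dim, aeval (phi D pb.gen) (C (∑ k, a k * ((v k i : ℚ) : ℚ_[p])) *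
        X ^ (i : ℕ)) = ∑ k, a k • (((v k i : ℚ) : ℚ_[p]) • phi D (pb.gen ^ (i : ℕ))) := by
      intro i
      rw [map_mul, map_pow, aeval_X, aeval_C, map_pow, ← Algebra.smul_def, Finset.sum_smul]
      exact Finset.sum_congr rfl fun k _ => by rw [smul_smul]
    rw [Finset.sum_congr rfl fun i _ => h1 i, Finset.sum_comm]
    have h2 : ∀ k, ∑ i : Fin pb.dim, a k • (((v k i : ℚ) : ℚ_[p]) • phi D (pb.gen ^ (i : ℕ))) =
        a k • phi D (e k) := by
      intro k
      rw [← Finset.smul_sum]
      congr 1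
      rw [hev k, map_sum]
      refine Finset.sum_congr rfl fun i _ => ?_
      ext r s
      rw [Matrix.smul_apply, phi_apply, phi_apply, map_smul, Matrix.smul_apply]
      simp
    rw [Finset.sum_congr rfl fun k _ => h2 k, Matrix.sum_mulVec]
    rw [← ha]
    refine Finset.sum_congr rfl fun k _ => ?_
    rw [Matrix.smul_mulVec, he k, log_smul hD]
  have hq0 : q = 0 := by
    by_contra hne
    exact vec_ne_zero hD hn pb.gen pb.dim hpb P hP q hne hqdeg hqx
  ext i
  have h5 := hqcoeff i
  rw [hq0, coeff_zero] at h5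
  simp only [Finset.sum_apply, Pi.smul_apply, smul_eq_mul, Pi.zero_apply]
  exact h5.symm

/-- **Main theorem**: the closure of a subgroup contained in `E · P` has full rank. -/
theorem closureRank_eq (L : Submodule ℚ D.M) (hL : FiniteDimensional ℚ L) (P : D.M)
    (hE : ∀ x ∈ L, ∃ e : D.E, x = e • P) : closureRank D L = Module.finrank ℚ L := by
  classical
  let b := Module.finBasis ℚ L
  have hb : LinearIndependent ℚ (fun k => ((b k : L) : D.M)) :=
    b.linearIndependent.map' L.subtype (LinearMap.ker_eq_bot.mpr L.injective_subtype)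
  have hi := indep_log hD hn P (fun k => ((b k : L) : D.M)) hb (fun k => hE _ (b k).2)
  have hspan : Submodule.span ℚ_[p] (D.log '' (L : Set D.M)) =
      Submodule.span ℚ_[p] (Set.range (fun k => D.log ((b k : L) : D.M))) := by
    apply le_antisymm
    · rw [Submodule.span_le]
      rintro _ ⟨x, hx, rfl⟩
      have h1 : (⟨x, hx⟩ : L) = ∑ k, b.repr ⟨x, hx⟩ k • b k := (b.sum_repr _).symm
      have h2 : x = ∑ k, b.repr ⟨x, hx⟩ k • ((b k : L) : D.M) := by
        have := congrArg L.subtype h1
        rw [map_sum] at this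
        exact this
      rw [h2, map_sum]
      refine Submodule.sum_mem _ fun k _ => ?_
      rw [map_smul]
      have h3 : ∀ (r : ℚ) (w : Fin n → ℚ_[p]), r • w = ((r : ℚ) : ℚ_[p]) • w := by
        intro r w
        ext i
        simp [Rat.smul_def]
      rw [h3]
      exact Submodule.smul_mem _ _ (Submodule.subset_span ⟨k, rfl⟩)
    · rw [Submodule.span_le]
      rintro _ ⟨k, rfl⟩
      exact Submodule.subset_span ⟨_, (b k).2, rfl⟩
  rw [closureRank, hspan, finrank_span_eq_card hi, Fintype.card_fin]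

end

end Pool.Agent.N522.PC
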